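import Mathlib

open MeasureTheory
open scoped ENNReal Nat

namespace Pool.Agent.Results.MP_5a8271_pr.NoConstantRate

/-- The random variable `X : Ω → S` with values in the poset `S` has constant rate `α`: `α > 0`,
its upper probability function `F x = μ(X ≥ x)` is positive everywhere, and its probability
density function `f x = μ(X = x)` satisfies `f x = α * F x` for all `x`. -/
structure HasConstantRate {S Ω : Type*} [PartialOrder S] [MeasurableSpace Ω]
    (μ : Measure Ω) (X : Ω → S) (α : ℝ) : Prop where
  rate_pos : 0 < α
  upf_pos : ∀ x : S, 0 < μ {ω | x ≤ X ω}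
  rate_eq : ∀ x : S, μ {ω | X ω = x} = ENNReal.ofReal α * μ {ω | x ≤ X ω}

/-- The underlying set of the counterexample: the tree nodes `node k i` (level `k`,
`i < (k+1)!`), and the elements `top k` of a chain. -/
inductive P : Type
  | node (k : ℕ) (i : Fin (k + 1)!) : P
  | top (k : ℕ) : P

namespace P

/-- The order. -/
def le : P → P → Prop
  | node k i, node j l => k ≤ j ∧ (l : ℕ) % (k + 1)! = i
  | node k _, top j => k ≤ j
  | top _, node _ _ => False
  | top k, top j => k ≤ j

theorem le_refl' (x : P) : le x x := by
  cases x with
  | node k i => exact ⟨le_rfl, Nat.mod_eq_of_lt i.2⟩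
  | top k => exact le_rfl (a := k)

theorem le_trans' (x y z : P) (h : le x y) (h' : le y z) : le x z := by
  cases x with
  | node k i =>
    cases y with
    | node j l =>
      cases z with
      | node m r =>
        refine ⟨h.1.trans h'.1, ?_⟩
        have h1 := h.2
        have h2 := h'.2
        rw [← h1, ← h2, Nat.mod_mod_of_dvd _ (Nat.factorial_dvd_factorial (by have := h.1; omega))]
      | top m => exact h.1.trans h'
    | top j =>
      cases z with
      | node m r => exact h'.elim
      | top m => exact le_trans (a := k) (b := j) (c := m) h h'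
  | top k =>
    cases y with
    | node j l => exact h.elim
    | top j =>
      cases z with
      | node m r => exact h'.elim
      | top m => exact le_trans (a := k) (b := j) (c := m) h h'

theorem le_antisymm' (x y : P) (h : le x y) (h' : le y x) : x = y := by
  cases x with
  | node k i =>
    cases y with
    | node j l =>
      have hkj : k = j := le_antisymm h.1 h'.1
      subst hkj
      have : (l : ℕ) = i := by
        have := h.2
        rwa [Nat.mod_eq_of_lt l.2] at this
      rw [Fin.ext this]
    | top j => exact h'.elim
  | top k =>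
    cases y with
    | node j l => exact h.elim
    | top j => rw [le_antisymm (a := k) (b := j) h h']

instance : PartialOrder P where
  le := le
  le_refl := le_refl'
  le_trans := le_trans'
  le_antisymm := le_antisymm'

theorem node_le_node {k j : ℕ} {i : Fin (k + 1)!} {l : Fin (j + 1)!} :
    node k i ≤ node j l ↔ k ≤ j ∧ (l : ℕ) % (k + 1)! = i := Iff.rfl

theorem node_le_top {k j : ℕ} {i : Fin (k + 1)!} : node k i ≤ top j ↔ k ≤ j := Iff.rfl

theorem not_top_le_node {k j : ℕ} {l : Fin (j + 1)!} : ¬ top k ≤ node j l := fun h => h

theorem top_le_top {k j : ℕ} : top k ≤ top j ↔ k ≤ j := Iff.rfl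

/-- The level of an element. -/
def level : P → ℕ
  | node k _ => k
  | top k => k

theorem level_mono {x y : P} (h : x ≤ y) : level x ≤ level y := by
  cases x with
  | node k i =>
    cases y with
    | node j l => exact h.1
    | top j => exact h
  | top k =>
    cases y with
    | node j l => exact h.elim
    | top j => exact h

theorem finite_level_le (n : ℕ) : {x : P | level x ≤ n}.Finite := by
  have h1 : (⋃ k ∈ Finset.range (n + 1), (Set.range (node k) ∪ {top k})).Finite := by
    refine Set.Finite.biUnion (Finset.finite_toSet _) fun k _ => ?_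
    exact (Set.finite_range _).union (Set.finite_singleton _)
  refine h1.subset fun x hx => ?_
  simp only [Set.mem_iUnion]
  cases x with
  | node k i => exact ⟨k, Finset.mem_range.2 (Nat.lt_succ_of_le hx), Or.inl ⟨i, rfl⟩⟩
  | top k => exact ⟨k, Finset.mem_range.2 (Nat.lt_succ_of_le hx), Or.inr rfl⟩

theorem finite_Iic (x : P) : (Set.Iic x).Finite :=
  (finite_level_le (level x)).subset fun _ hy => level_mono hy

theorem finite_covers (x : P) : {y | x ⋖ y}.Finite := by
  refine (finite_level_le (level x + 1)).subset fun y hy => ?_
  by_contra hlt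
  simp only [Set.mem_ofPred_eq, not_le] at hy hlt
  have hle := hy.lt.le
  cases x with
  | node k i =>
    cases y with
    | node j l =>
      simp only [level] at hlt
      have hk1 : (l : ℕ) % (k + 1 + 1)! < (k + 1 + 1)! := Nat.mod_lt _ (Nat.factorial_pos _)
      have hm : (l : ℕ) % (k + 1)! = i := hle.2
      refine hy.2 (c := node (k + 1) ⟨(l : ℕ) % (k + 1 + 1)!, hk1⟩) ?_ ?_
      · refine lt_of_le_of_ne ⟨Nat.le_succ _, ?_⟩ ?_
        · show ((l : ℕ) % (k + 1 + 1)!) % (k + 1)! = i
          rw [Nat.mod_mod_of_dvd _ (Nat.factorial_dvd_factorial (by omega)), hm]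
        · intro h
          have := congrArg level h
          simp [level] at this
      · refine lt_of_le_of_ne ⟨by omega, rfl⟩ ?_
        intro h
        have := congrArg level h
        simp only [level] at this
        omega
    | top j =>
      simp only [level] at hlt
      refine hy.2 (c := top k) ?_ ?_
      · refine lt_of_le_of_ne (node_le_top.2 le_rfl) (by simp)
      · refine lt_of_le_of_ne (top_le_top.2 (by omega)) ?_
        intro h
        have := congrArg level h
        simp only [level] at this
        omega
  | top k =>
    cases y with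
    | node j l => exact hle.elim
    | top j =>
      simp only [level] at hlt
      refine hy.2 (c := top (k + 1)) ?_ ?_
      · refine lt_of_le_of_ne (top_le_top.2 (by omega)) ?_
        intro h
        have := congrArg level h
        simp [level] at this
      · refine lt_of_le_of_ne (top_le_top.2 (by omega)) ?_
        intro h
        have := congrArg level h
        simp only [level] at this
        omega

theorem not_isMax (x : P) : ¬ IsMax x := by
  intro h
  have h1 : x ≤ top (level x + 1) := by
    cases x with
    | node k i => exact node_le_top.2 (Nat.le_succ _)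
    | top k => exact top_le_top.2 (Nat.le_succ _)
  have h2 := level_mono (h h1)
  simp [level] at h2

instance : OrderBot P where
  bot := node 0 ⟨0, Nat.factorial_pos _⟩
  bot_le x := by
    cases x with
    | node k i => exact ⟨Nat.zero_le _, by simp [Nat.mod_one]⟩
    | top k => exact Nat.zero_le _

open Classical in
/-- Joins. -/
noncomputable def join (x y : P) : P :=
  if x ≤ y then y else if y ≤ x then x else top (max (level x) (level y))

theorem le_top_iff {x : P} {n : ℕ} : x ≤ top n ↔ level x ≤ n := by
  cases x <;> exact Iff.rfl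

theorem le_join_left (x y : P) : x ≤ join x y := by
  unfold join
  split_ifs with h1 h2
  · exact h1
  · exact le_rfl
  · exact le_top_iff.2 (le_max_left _ _)

theorem le_join_right (x y : P) : y ≤ join x y := by
  unfold join
  split_ifs with h1 h2
  · exact le_rfl
  · exact h2
  · exact le_top_iff.2 (le_max_right _ _)

theorem join_le (x y z : P) (hx : x ≤ z) (hy : y ≤ z) : join x y ≤ z := by
  unfold join
  split_ifs with h1 h2
  · exact hy
  · exact hx
  · cases z with
    | top m => exact top_le_top.2 (max_le (level_mono hx) (level_mono hy))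
    | node m r =>
      exfalso
      cases x with
      | top k => exact hx.elim
      | node k i =>
        cases y with
        | top j => exact hy.elim
        | node j l =>
          rcases le_total k j with hkj | hkj
          · apply h1
            refine ⟨hkj, ?_⟩
            rw [← hx.2, ← hy.2, Nat.mod_mod_of_dvd _ (Nat.factorial_dvd_factorial (by omega))]
          · apply h2
            refine ⟨hkj, ?_⟩
            rw [← hx.2, ← hy.2, Nat.mod_mod_of_dvd _ (Nat.factorial_dvd_factorial (by omega))]

noncomputable instance : SemilatticeSup P where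
  sup := join
  le_sup_left := le_join_left
  le_sup_right := le_join_right
  sup_le := join_le

open Classical in
noncomputable instance : Lattice P where
  inf x y := ((finite_Iic x).toFinset.filter (· ≤ y)).sup id
  inf_le_left x y := Finset.sup_le fun z hz => by simpa using (Finset.mem_filter.1 hz).1
  inf_le_right x y := Finset.sup_le fun z hz => by simpa using (Finset.mem_filter.1 hz).2
  le_inf x y z h1 h2 := by
    have : x ∈ (finite_Iic y).toFinset.filter (· ≤ z) := by
      simp [h1, h2]
    exact Finset.le_sup (f := id) this

instance : Countable P := by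
  have : (Set.univ : Set P) = ⋃ n : ℕ, {x : P | level x ≤ n} := by
    ext x
    simp only [Set.mem_univ, Set.mem_iUnion, Set.mem_ofPred_eq, true_iff]
    exact ⟨level x, le_rfl⟩
  rw [← Set.countable_univ_iff, this]
  exact Set.countable_iUnion fun n => (finite_level_le n).countable

theorem top_le_iff {k : ℕ} {y : P} : top k ≤ y ↔ y = top k ∨ top (k + 1) ≤ y := by
  cases y with
  | node j l => simp [not_top_le_node]
  | top j =>
    rw [top_le_top, top_le_top]
    constructor
    · intro h
      rcases Nat.eq_or_lt_of_le h with h | h
      · left; rw [h]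
      · right; exact h
    · rintro (h | h)
      · cases h; exact le_rfl
      · omega

theorem not_hasConstantRate {Ω : Type*} [MeasurableSpace Ω] (μ : Measure Ω)
    [IsProbabilityMeasure μ] (X : Ω → P) (hX : ∀ x, MeasurableSet {ω | X ω = x}) (α : ℝ) :
    ¬ HasConstantRate μ X α := by
  intro h
  set a : ℕ → ℝ≥0∞ := fun k => μ {ω | top k ≤ X ω} with ha
  have hmeas : ∀ x : P, MeasurableSet {ω | x ≤ X ω} := by
    intro x
    have : {ω | x ≤ X ω} = ⋃ y : {y : P // x ≤ y}, {ω | X ω = y} := by
      ext ω
      simp only [Set.mem_ofPred_eq, Set.mem_iUnion]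
      exact ⟨fun h => ⟨⟨X ω, h⟩, rfl⟩, fun ⟨y, hy⟩ => hy ▸ y.2⟩
    rw [this]
    exact MeasurableSet.iUnion fun y => hX _
  have hstep : ∀ k, a k = ENNReal.ofReal α * a k + a (k + 1) := by
    intro k
    have h1 : {ω | top k ≤ X ω} = {ω | X ω = top k} ∪ {ω | top (k + 1) ≤ X ω} := by
      ext ω
      simp only [Set.mem_ofPred_eq, Set.mem_union]
      exact top_le_iff
    have hdisj : Disjoint {ω | X ω = top k} {ω | top (k + 1) ≤ X ω} := by
      rw [Set.disjoint_left]
      intro ω h1 h2
      simp only [Set.mem_ofPred_eq] at h1 h2
      rw [h1, top_le_top] at h2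
      omega
    calc a k = μ ({ω | X ω = top k} ∪ {ω | top (k + 1) ≤ X ω}) := by rw [ha]; simp only [h1]
      _ = μ {ω | X ω = top k} + μ {ω | top (k + 1) ≤ X ω} := measure_union hdisj (hmeas _)
      _ = ENNReal.ofReal α * a k + a (k + 1) := by rw [h.rate_eq (top k)]
  have hfin : ∀ k, a k ≠ ∞ := fun k => measure_ne_top _ _
  set b : ℕ → ℝ := fun k => (a k).toReal with hb
  have hbpos : ∀ k, 0 < b k := fun k =>
    ENNReal.toReal_pos (h.upf_pos (top k)).ne' (hfin k)
  have hbstep : ∀ k, b (k + 1) = (1 - α) * b k := by
    intro k
    have h1 : b k = α * b k + b (k + 1) := by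
      have := congrArg ENNReal.toReal (hstep k)
      rw [ENNReal.toReal_add (ENNReal.mul_ne_top ENNReal.ofReal_ne_top (hfin k)) (hfin _),
        ENNReal.toReal_mul, ENNReal.toReal_ofReal h.rate_pos.le] at this
      exact this
    linarith
  have hα : 0 < 1 - α := by
    have h1 := hbpos 1
    rw [hbstep 0] at h1
    exact pos_of_mul_pos_left h1 (hbpos 0).le
  have hbk : ∀ k, b k = (1 - α) ^ k * b 0 := by
    intro k
    induction k with
    | zero => simp
    | succ k ih => rw [hbstep, ih, pow_succ]; ring
  have hlev : ∀ k : ℕ, ((k + 1)! : ℝ) * (α * b k) ≤ 1 := by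
    intro k
    have h1 : ∑ i : Fin (k + 1)!, μ {ω | X ω = node k i} ≤ 1 := by
      rw [← tsum_fintype (L := SummationFilter.unconditional _), ← measure_iUnion]
      · exact prob_le_one
      · intro i j hij
        rw [Function.onFun, Set.disjoint_left]
        intro ω h1 h2
        simp only [Set.mem_ofPred_eq] at h1 h2
        rw [h1] at h2
        simp only [node.injEq, heq_eq_eq, true_and] at h2
        exact hij h2
      · exact fun i => hX _
    have h2 : ∀ i : Fin (k + 1)!, ENNReal.ofReal α * a k ≤ μ {ω | X ω = node k i} := by
      intro i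
      rw [h.rate_eq (node k i)]
      gcongr
      apply measure_mono
      intro ω hω
      exact le_trans (node_le_top.2 (le_refl k)) hω
    have h3 : ((k + 1)! : ℝ≥0∞) * (ENNReal.ofReal α * a k) ≤ 1 := by
      calc ((k + 1)! : ℝ≥0∞) * (ENNReal.ofReal α * a k)
          = ∑ _i : Fin (k + 1)!, ENNReal.ofReal α * a k := by simp
        _ ≤ ∑ i : Fin (k + 1)!, μ {ω | X ω = node k i} := Finset.sum_le_sum fun i _ => h2 i
        _ ≤ 1 := h1
    have h4 := ENNReal.toReal_mono ENNReal.one_ne_top h3
    rw [ENNReal.toReal_mul, ENNReal.toReal_mul, ENNReal.toReal_ofReal h.rate_pos.le] at h4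
    simpa using h4
  have hlim := FloorSemiring.tendsto_pow_div_factorial_atTop (1 / (1 - α))
  have hpos : 0 < α * b 0 := mul_pos h.rate_pos (hbpos 0)
  obtain ⟨k, hk⟩ := ((hlim.eventually (gt_mem_nhds hpos))).exists
  have h5 := hlev k
  rw [hbk k] at h5
  have hfac : (0 : ℝ) < (k ! : ℝ) := by exact_mod_cast Nat.factorial_pos k
  have h6 : ((k + 1)! : ℝ) = (k + 1) * (k ! : ℝ) := by
    rw [Nat.factorial_succ]; push_cast; ring
  have hpk : 0 < (1 - α) ^ k := pow_pos hα k
  rw [one_div, inv_pow, div_lt_iff₀ hfac] at hk
  have h7 : 1 < α * b 0 * (k ! : ℝ) * (1 - α) ^ k := by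
    have := mul_lt_mul_of_pos_right hk hpk
    rwa [inv_mul_cancel₀ hpk.ne'] at this
  have h8 : α * b 0 * (k ! : ℝ) * (1 - α) ^ k ≤ ((k + 1)! : ℝ) * (α * ((1 - α) ^ k * b 0)) := by
    rw [h6]
    have h9 : 0 ≤ (k : ℝ) * (α * b 0 * (k ! : ℝ) * (1 - α) ^ k) := by positivity
    nlinarith
  linarith

end P

/-- **Answer to Q1: no.**  There is a standard discrete poset without maximal elements which
carries no distribution of constant rate.  The poset is even a lattice with a least element in
which every element has only finitely many upper covers. -/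
theorem result.{u} : ∃ (S : Type) (_ : Lattice S) (_ : OrderBot S),
    Countable S ∧ (∀ x : S, (Set.Iic x).Finite) ∧ (∀ x : S, {y : S | x ⋖ y}.Finite) ∧
    (∀ x : S, ¬ IsMax x) ∧
    ∀ (Ω : Type u) (_ : MeasurableSpace Ω) (μ : Measure Ω) (_ : IsProbabilityMeasure μ)
      (X : Ω → S), (∀ x : S, MeasurableSet {ω | X ω = x}) →
      ∀ α : ℝ, ¬ HasConstantRate μ X α := by
  refine ⟨P, inferInstance, inferInstance, inferInstance, P.finite_Iic, P.finite_covers,
    P.not_isMax, ?_⟩
  intro Ω _ μ _ X hX α
  exact P.not_hasConstantRate μ X hX α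

end Pool.Agent.Results.MP_5a8271_pr.NoConstantRate
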